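import Pool.Agent.H.MP_503320_al.B

namespace Pool.Agent.H.MP_701827_al

open Filter Topology MonoidAlgebra

@[ext] structure N where
  a : ℕ
  k : ℕ

instance : Monoid N where
  mul x y := ⟨x.a + 3 ^ x.k * y.a, x.k + y.k⟩
  one := ⟨0, 0⟩
  mul_assoc x y z := N.ext (by
    change x.a + 3 ^ x.k * y.a + 3 ^ (x.k + y.k) * z.a = x.a + 3 ^ x.k * (y.a + 3 ^ y.k * z.a)
    ring) (add_assoc _ _ _)
  one_mul x := N.ext (by change 0 + 3 ^ 0 * x.a = x.a; simp) (zero_add _)
  mul_one x := N.ext (by change x.a + 3 ^ x.k * 0 = x.a; simp) (add_zero _)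

theorem ma (x y : N) : (x * y).a = x.a + 3 ^ x.k * y.a := rfl
theorem mk' (x y : N) : (x * y).k = x.k + y.k := rfl

instance : UniqueProds N where
  uniqueMul_of_nonempty := by
    intro A B hA hB
    obtain ⟨x, hx, h1⟩ := A.exists_max_image (fun z => toLex (z.k, z.a)) hA
    obtain ⟨y, hy, h2⟩ := B.exists_max_image (fun z => toLex (z.k, z.a)) hB
    refine ⟨x, hx, y, hy, fun u v hu hv e => ?_⟩
    have e1 := congrArg N.a e
    have e2 := congrArg N.k e
    rw [ma, ma] at e1
    rw [mk', mk'] at e2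
    have a1 := Prod.Lex.le_iff.mp (h1 u hu)
    have a2 := Prod.Lex.le_iff.mp (h2 v hv)
    simp only [ofLex_toLex] at a1 a2
    have k1 : u.k = x.k := by omega
    have k2 : v.k = y.k := by omega
    rw [k1] at e1
    have p : 0 < 3 ^ x.k := by positivity
    have b1 : u.a ≤ x.a := by omega
    have b2 : v.a ≤ y.a := by omega
    have b3 := Nat.mul_le_mul_left (3 ^ x.k) b2
    exact ⟨N.ext (by omega) k1, N.ext (Nat.eq_of_mul_eq_mul_left p (by omega)) k2⟩

noncomputable def box (K H : ℕ) : Finset N :=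
  (Finset.range H ×ˢ Finset.range K).map ⟨fun x => ⟨x.1, x.2⟩, fun _ _ h =>
    Prod.ext (congrArg N.a h) (congrArg N.k h)⟩

theorem mem_box {K H : ℕ} {x : N} : x ∈ box K H ↔ x.a < H ∧ x.k < K := by
  simp only [box, Finset.mem_map, Finset.mem_product, Finset.mem_range]
  exact ⟨by rintro ⟨y, h, rfl⟩; exact h, fun h => ⟨(x.a, x.k), h, rfl⟩⟩

theorem card_box (K H : ℕ) : (box K H).card = H * K := by simp [box]

variable {K : Type} [DivisionRing K]

theorem fr (S : Finset N) : Module.finrank K (supported K K (S : Set N)) = S.card := by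
  rw [(supportedEquivFinsupp (S : Set N)).finrank_eq, Module.finrank_finsupp_self]
  simp

theorem ore (r s : MonoidAlgebra K N) (hs : s ≠ 0) :
    ∃ r' s' : MonoidAlgebra K N, s' ≠ 0 ∧ s' * r = r' * s := by
  classical
  set L := (r.coeff.support ∪ s.coeff.support).sup (fun x => x.a + x.k) + 1 with hL
  let rm : MonoidAlgebra K N → MonoidAlgebra K N →ₗ[K] MonoidAlgebra K N := fun t =>
    { toFun := fun p => p * t
      map_add' := fun p q => add_mul p q t
      map_smul' := fun c p => smul_mul_assoc c p t }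
  have mem : ∀ t : MonoidAlgebra K N, t.coeff.support ⊆ r.coeff.support ∪ s.coeff.support →
      ∀ p ∈ supported K K (box (3 * L) (3 * L * 3 ^ (3 * L)) : Set N),
        rm t p ∈ supported K K (box (4 * L) (4 * L * 3 ^ (3 * L)) : Set N) := by
    intro t ht p hp m hm
    obtain ⟨a, h1, b, h2, rfl⟩ := Finset.mem_mul.mp (support_coeff_mul_subset p t hm)
    obtain ⟨a1, a2⟩ := mem_box.mp (hp h1)
    have a3 : b.a + b.k ≤ _ := Finset.le_sup (f := fun x : N => x.a + x.k) (ht h2)
    have a4 : 3 ^ a.k * b.a ≤ 3 ^ (3 * L) * L :=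
      Nat.mul_le_mul (Nat.pow_le_pow_right (by omega) a2.le) (by omega)
    refine mem_box.mpr ⟨?_, by rw [mk']; omega⟩
    rw [ma]
    nlinarith
  let Φ := LinearMap.coprod ((rm r).restrict (mem r Finset.subset_union_left))
    (-(rm s).restrict (mem s Finset.subset_union_right))
  have fin : ∀ S : Finset N, Module.Finite K (supported K K (S : Set N)) := fun S =>
    Module.Finite.equiv (supportedEquivFinsupp (S : Set N)).symm
  obtain ⟨⟨p, q⟩, h1, h2⟩ : ∃ x, Φ x = 0 ∧ x ≠ 0 := by
    by_contra hcon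
    push Not at hcon
    have := LinearMap.finrank_le_finrank_of_injective ((injective_iff_map_eq_zero Φ).mpr hcon)
    rw [Module.finrank_prod, fr, fr, card_box, card_box] at this
    have : 0 < L * L * 3 ^ (3 * L) := by positivity
    nlinarith
  have h3 : p.1 * r = q.1 * s :=
    sub_eq_zero.mp (by rw [sub_eq_add_neg]; exact congrArg Subtype.val h1)
  refine ⟨q.1, p.1, fun h => h2 ?_, h3⟩
  have h4 : q.1 = 0 := by
    rw [h, zero_mul] at h3
    exact (mul_eq_zero.mp h3.symm).resolve_right hs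
  exact Prod.ext (Subtype.ext h) (Subtype.ext h4)

def dg : FreeMonoid (Fin 3) →* N := FreeMonoid.lift fun i => ⟨i, 1⟩

theorem dg_inj : Function.Injective dg := by
  intro u
  induction u using FreeMonoid.inductionOn' with
  | one =>
    intro v h
    induction v using FreeMonoid.inductionOn' with
    | one => rfl
    | of_mul j v _ =>
      have := congrArg N.k h
      rw [map_one, map_mul, mk'] at this
      change 0 = 1 + _ at this
      omega
  | of_mul i u ih =>
    intro v h
    induction v using FreeMonoid.inductionOn' with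
    | one =>
      have := congrArg N.k h
      rw [map_one, map_mul, mk'] at this
      change 1 + _ = 0 at this
      omega
    | of_mul j v _ =>
      have e1 := congrArg N.a h
      have e2 := congrArg N.k h
      rw [map_mul, map_mul, ma, ma] at e1
      rw [map_mul, map_mul, mk', mk'] at e2
      change (i : ℕ) + 3 ^ 1 * _ = j + 3 ^ 1 * _ at e1
      change 1 + _ = 1 + _ at e2
      have : i = j := Fin.ext (by omega)
      rw [this, ih (N.ext (by omega) (by omega) : dg u = dg v)]

structure Good {K K' : Type} [DivisionRing K] [DivisionRing K'] (i : K →+* K') (J : AddSubgroup K')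
    (p q b : K') : Prop where
  l : ∀ k, ∀ x ∈ J, i k * x ∈ J
  r : ∀ k, ∀ x ∈ J, x * i k ∈ J
  m : ∀ x ∈ J, ∀ y ∈ J, x * y ∈ J
  z : ∀ k, i k ∈ J → k = 0
  hp : p - 1 ∈ J
  hq : q - 1 ∈ J
  hb : b ∈ J
  e : q = b * p⁻¹ * b

theorem step (K : Type) [DivisionRing K] : ∃ (K' : Type) (_ : DivisionRing K') (i : K →+* K')
    (J : AddSubgroup K') (p q b : K'), Good i J p q b := by
  obtain ⟨K', _, ι, h1, -, -⟩ := MP_503320_al.exK (MonoidAlgebra K N) ore
  let g : FreeMonoid (Fin 3) →* K := FreeMonoid.lift fun i => if i = 1 then 0 else 1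
  have gc : ∀ (y : FreeMonoid (Fin 3)) (x : K), Commute x (g y) := by
    intro y x
    induction y using FreeMonoid.inductionOn' with
    | one => simp
    | of_mul i u ih =>
      rw [map_mul]
      refine Commute.mul_right ?_ ih
      simp only [g, FreeMonoid.lift_eval_of]
      split_ifs <;> simp
  let χ := liftNCRingHom (RingHom.id K) g fun x y => gc y x
  let φ := ι.comp (mapDomainRingHom K dg)
  have hφ : ∀ x, φ x = 0 → x = 0 := fun x h =>
    mapDomain_injective dg_inj ((h1 _ h).trans (mapDomain_zero _).symm)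
  let w : Fin 3 → K' := fun i => φ (single (FreeMonoid.of i) 1)
  have hw : ∀ i : Fin 3, w i = ι (single ⟨i, 1⟩ 1) := fun i => congrArg ι mapDomain_single
  refine ⟨K', inferInstance, φ.comp singleOneRingHom, (RingHom.ker χ).toAddSubgroup.map φ,
    w 0, w 2, w 1, ?_, ?_, ?_, ?_, ⟨single (FreeMonoid.of 0) 1 - 1, ?_, by simp [w]⟩,
    ⟨single (FreeMonoid.of 2) 1 - 1, ?_, by simp [w]⟩, ⟨single (FreeMonoid.of 1) 1, ?_, rfl⟩, ?_⟩
  · rintro k _ ⟨x, hx, rfl⟩
    exact ⟨_, Ideal.mul_mem_left _ (singleOneRingHom k) hx, map_mul φ _ _⟩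
  · rintro k _ ⟨x, hx, rfl⟩
    exact ⟨_, Ideal.mul_mem_right (singleOneRingHom k) _ hx, map_mul φ _ _⟩
  · rintro _ ⟨x, -, rfl⟩ _ ⟨y, hy, rfl⟩
    exact ⟨_, Ideal.mul_mem_left _ x hy, map_mul φ _ _⟩
  · rintro k ⟨x, hx, e⟩
    have : x = singleOneRingHom k := sub_eq_zero.mp (hφ _ (by rw [map_sub, sub_eq_zero]; exact e))
    have h2 : χ x = 0 := hx
    simpa [this, χ] using h2
  · change χ _ = 0
    simp [χ, g]
  · change χ _ = 0
    simp [χ, g]
  · change χ _ = 0
    simp [χ, g]
  · have e1 : w 1 = ι (single ⟨1, 0⟩ 1) * w 0 := by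
      rw [hw, hw, ← map_mul, single_mul_single, one_mul]; rfl
    have e2 : w 2 = ι (single ⟨1, 0⟩ 1) * w 1 := by
      rw [hw, hw, ← map_mul, single_mul_single, one_mul]; rfl
    have : w 0 ≠ 0 := fun h => by simpa using hφ _ h
    rw [e2]
    conv_rhs => rw [e1, mul_inv_cancel_right₀ this, ← e1]

end Pool.Agent.H.MP_701827_al
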